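import Pool.Agent.H180Z.Dyn.Main

set_option autoImplicit false

namespace Pool.Agent.Results.MP_dcd72d_ag.ANoGap

open Pool.Agent.H180Z.Dyn

/-- Over every field the second cohomological Lyapunov exponents `λ₂ / λ₁` of the dominant rational
self-maps of the projective plane are dense in the positive reals. -/
theorem result (k : Type) [Field k] (a b : ℝ) (ha : 0 < a) (hab : a < b) :
    ∃ (φ : FF k →ₐ[k] FF k) (l₁ l₂ : ℝ), IsGrowthRate (fun n => algDeg (φ ^ n)) l₁ ∧
      IsGrowthRate (fun n => topDeg (φ ^ n)) l₂ ∧ a < l₂ / l₁ ∧ l₂ / l₁ < b :=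
  dense_ratio k a b ha hab

end Pool.Agent.Results.MP_dcd72d_ag.ANoGap
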